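import Mathlib

set_option autoImplicit false

namespace Pool.Agent.Results.MP_a52033_al.SimpleExample

/-- `m` is the product of a right alternative algebra: `(x y) y = x (y y)`. -/
def RightAlternative {F A : Type} [Field F] [AddCommGroup A] [Module F A]
    (m : A →ₗ[F] A →ₗ[F] A) : Prop :=
  ∀ x y : A, m (m x y) y = m x (m y y)

/-- `m` is the product of an alternative algebra: `(x x) y = x (x y)` and `(x y) y = x (y y)`. -/
def Alternative {F A : Type} [Field F] [AddCommGroup A] [Module F A]
    (m : A →ₗ[F] A →ₗ[F] A) : Prop :=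
  (∀ x y : A, m (m x x) y = m x (m x y)) ∧ (∀ x y : A, m (m x y) y = m x (m y y))

/-- The commutator `[x, y] = x y - y x`. -/
def comm {F A : Type} [Field F] [AddCommGroup A] [Module F A]
    (m : A →ₗ[F] A →ₗ[F] A) (x y : A) : A := m x y - m y x

/-- The commutator algebra is a Malcev algebra. -/
def MalcevAdmissible {F A : Type} [Field F] [AddCommGroup A] [Module F A]
    (m : A →ₗ[F] A →ₗ[F] A) : Prop :=
  (∀ x : A, comm m x x = 0) ∧
  ∀ x y z : A, comm m (comm m x y) (comm m x z) =
    comm m (comm m (comm m x y) z) x + comm m (comm m (comm m y z) x) x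
      + comm m (comm m (comm m z x) x) y

/-- `A² ≠ 0` and the only two-sided ideals are `0` and `A`. -/
def Simple {F A : Type} [Field F] [AddCommGroup A] [Module F A]
    (m : A →ₗ[F] A →ₗ[F] A) : Prop :=
  (∃ x y : A, m x y ≠ 0) ∧
  ∀ I : Submodule F A, (∀ x ∈ I, ∀ a : A, m x a ∈ I ∧ m a x ∈ I) → I = ⊥ ∨ I = ⊤

/-- The product on `F³` with `e₁e₁ = e₁`, `e₂e₁ = e₂`, `e₂e₂ = e₃`, `e₂e₃ = e₁`, `e₃e₂ = e₁`,
all other products of basis vectors being zero. -/
def prod3 (F : Type) [Field F] : (F × F × F) →ₗ[F] (F × F × F) →ₗ[F] (F × F × F) :=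
  LinearMap.mk₂ F
    (fun x y => (x.1 * y.1 + x.2.1 * y.2.2 + x.2.2 * y.2.1, x.2.1 * y.1, x.2.1 * y.2.1))
    (by intro x x' y; ext <;> simp <;> ring)
    (by intro c x y; ext <;> simp <;> ring)
    (by intro x y y'; ext <;> simp <;> ring)
    (by intro c x y; ext <;> simp <;> ring)

theorem prod3_apply (F : Type) [Field F] (x y : F × F × F) :
    prod3 F x y =
      (x.1 * y.1 + x.2.1 * y.2.2 + x.2.2 * y.2.1, x.2.1 * y.1, x.2.1 * y.2.1) := rfl

theorem comm3 (F : Type) [Field F] [CharP F 2] (x y : F × F × F) :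
    comm (prod3 F) x y = (0, x.1 * y.2.1 + x.2.1 * y.1, 0) := by
  have h2 : (2 : F) = 0 := CharTwo.two_eq_zero
  ext
  · simp only [comm, prod3_apply, Prod.fst_sub]; ring
  · simp only [comm, prod3_apply, Prod.fst_sub, Prod.snd_sub]
    linear_combination (-(x.1 * y.2.1)) * h2
  · simp only [comm, prod3_apply, Prod.snd_sub]; ring

/-- Over every field of characteristic two there is a simple (three-dimensional) right alternative,
Malcev-admissible algebra which is not alternative. -/
theorem result :
    ∀ (F : Type) [Field F] [CharP F 2],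
      ∃ (A : Type) (_ : AddCommGroup A) (_ : Module F A) (m : A →ₗ[F] A →ₗ[F] A),
        Module.finrank F A = 3 ∧ Simple m ∧ RightAlternative m ∧ ¬ Alternative m ∧
          MalcevAdmissible m := by
  intro F _ _
  have h2 : (2 : F) = 0 := CharTwo.two_eq_zero
  refine ⟨F × F × F, inferInstance, inferInstance, prod3 F, ?_, ⟨?_, ?_⟩, ?_, ?_, ?_, ?_⟩
  · simp
  · refine ⟨(1, 0, 0), (1, 0, 0), ?_⟩
    rw [prod3_apply]
    simp
  · intro I hI
    by_cases h0 : I = ⊥
    · exact Or.inl h0
    right
    obtain ⟨x, hx, hx0⟩ := Submodule.exists_mem_ne_zero_of_ne_bot h0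
    have e1 : ((1, 0, 0) : F × F × F) ∈ I := by
      by_cases hb : x.2.1 = 0
      · by_cases ha : x.1 = 0
        · have hc : x.2.2 ≠ 0 := by
            intro hc
            exact hx0 (Prod.ext ha (Prod.ext hb hc))
          have := (hI x hx (0, x.2.2⁻¹, 0)).1
          rw [prod3_apply] at this
          simpa [ha, hb, hc] using this
        · have := (hI x hx (x.1⁻¹, 0, 0)).2
          rw [prod3_apply] at this
          simpa [ha, hb] using this
      · have := (hI x hx (0, 0, x.2.1⁻¹)).1
        rw [prod3_apply] at this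
        simpa [hb] using this
    have e2 : ((0, 1, 0) : F × F × F) ∈ I := by
      have := (hI _ e1 (0, 1, 0)).2
      rw [prod3_apply] at this
      simpa using this
    have e3 : ((0, 0, 1) : F × F × F) ∈ I := by
      have := (hI _ e2 (0, 1, 0)).1
      rw [prod3_apply] at this
      simpa using this
    rw [eq_top_iff]
    rintro ⟨a, b, c⟩ -
    have h := I.add_mem (I.add_mem (I.smul_mem a e1) (I.smul_mem b e2)) (I.smul_mem c e3)
    simpa using h
  · intro x y
    simp only [prod3_apply]
    refine Prod.ext ?_ (Prod.ext ?_ ?_)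
    · simp only
      linear_combination (x.2.1 * y.1 * y.2.2 - x.2.1 * y.2.1 * y.2.2 * 0
        - x.1 * y.2.1 * y.2.2) * h2
    · simp only
      linear_combination (- (x.2.1 * y.2.1 * y.2.2)) * h2
    · simp only
      ring
  · rintro ⟨hl, -⟩
    have h := hl (0, 1, 0) (1, 0, 0)
    simp only [prod3_apply] at h
    simp at h
  · intro x
    rw [comm3]
    refine Prod.ext rfl (Prod.ext ?_ rfl)
    simp only [Prod.fst_zero, Prod.snd_zero]
    linear_combination (x.1 * x.2.1) * h2
  · intro x y z
    simp only [comm3]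
    refine Prod.ext ?_ (Prod.ext ?_ ?_)
    · simp
    · simp
      linear_combination (- (x.1 * z.1 * x.2.1 * y.1) - x.1 ^ 2 * z.1 * y.2.1
        - x.1 ^ 2 * y.1 * z.2.1) * h2
    · simp

end Pool.Agent.Results.MP_a52033_al.SimpleExample
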